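import Pool.Agent.Work.MP_cbf770_co.TriMain

set_option autoImplicit false

namespace Pool.Agent.Results.MP_cbf770_co.DistinctDistances

/-- In a planar set of `n` points with no three collinear, the number of distinct distances from a
point to the other points is on average at least `(1/3 + c) (n - 1)`. -/
theorem result :
    ∃ c : ℝ, 0 < c ∧ ∀ P : Finset (EuclideanSpace ℝ (Fin 2)),
      (∀ a ∈ P, ∀ b ∈ P, ∀ c ∈ P, a ≠ b → a ≠ c → b ≠ c → ¬ Collinear ℝ {a, b, c}) →
      (1 / 3 + c) * ((P.card : ℝ) * (P.card - 1)) ≤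
        ∑ a ∈ P, (({r : ℝ | ∃ x ∈ P, x ≠ a ∧ dist a x = r}.ncard : ℕ) : ℝ) :=
  Pool.Agent.Work.MP_cbf770_co.dist_plane

end Pool.Agent.Results.MP_cbf770_co.DistinctDistances
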