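import Pool.Agent.Work.MP_cbf770_co.TriMain

set_option autoImplicit false

namespace Pool.Agent.Results.MP_cbf770_co.FourPointCircles

/-- After deleting boundedly many points, a set with no three collinear points spans at most
`(2 - c) * binom(n, 2)` isosceles triangles, up to a constant times the number of circles that are
centred at a point of the set and pass through at least four points of the set. -/
theorem result :
    ∃ c : ℝ, 0 < c ∧ ∃ C : ℕ, ∀ P : Finset (EuclideanSpace ℝ (Fin 2)),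
      (∀ a ∈ P, ∀ b ∈ P, ∀ c ∈ P, a ≠ b → a ≠ c → b ≠ c → ¬ Collinear ℝ {a, b, c}) →
      ∃ Q ⊆ P, (P \ Q).card ≤ C ∧
        (({T : Finset (EuclideanSpace ℝ (Fin 2)) | T ⊆ Q ∧ T.card = 3 ∧
            ∃ a ∈ T, ∃ b ∈ T, ∃ c ∈ T, a ≠ b ∧ a ≠ c ∧ b ≠ c ∧ dist a b = dist a c}.ncard : ℕ) : ℝ)
          ≤ (2 - c) * ((P.card.choose 2 : ℕ) : ℝ) +
            C * (({γ : EuclideanSpace ℝ (Fin 2) × ℝ |
              γ.1 ∈ P ∧ 4 ≤ {x | x ∈ P ∧ dist γ.1 x = γ.2}.ncard}.ncard : ℕ) : ℝ) :=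
  Pool.Agent.Work.MP_cbf770_co.iso_plane

end Pool.Agent.Results.MP_cbf770_co.FourPointCircles
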