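import Pool.Agent.Work.MP_cbf770_co.Plane

set_option autoImplicit false

namespace Pool.Agent.Results.MP_cbf770_co.TwoAdic

open Pool.Agent.Work.MP_cbf770_co

/-- Q1 with the constant 1.99 for point sets with rational coordinates, and more generally for
point sets in a valued subfield of the complex numbers whose elements of modulus one are all
congruent to one. -/
theorem result :
    ∃ C : ℕ, ∀ P : Finset (EuclideanSpace ℝ (Fin 2)),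
      ((∀ p ∈ P, ∀ i, ∃ q : ℚ, p i = q) ∨
        ∃ (L : Subfield ℂ) (Γ : Type) (_ : LinearOrderedCommGroupWithZero Γ) (v : Valuation L Γ),
          (∀ u : L, ‖(u : ℂ)‖ = 1 → v (u - 1) < 1) ∧ ∀ p ∈ P, (⟨p 0, p 1⟩ : ℂ) ∈ L) →
      (∀ a ∈ P, ∀ b ∈ P, ∀ c ∈ P, a ≠ b → a ≠ c → b ≠ c → ¬ Collinear ℝ {a, b, c}) →
      ∃ Q ⊆ P, (P \ Q).card ≤ C ∧
        (({T : Finset (EuclideanSpace ℝ (Fin 2)) | T ⊆ Q ∧ T.card = 3 ∧
            ∃ a ∈ T, ∃ b ∈ T, ∃ c ∈ T, a ≠ b ∧ a ≠ c ∧ b ≠ c ∧ dist a b = dist a c}.ncard : ℕ) : ℝ)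
          ≤ (1.99 : ℝ) * ((P.card.choose 2 : ℕ) : ℝ) := by
  refine ⟨10 ^ 12, fun P hP hcol => ?_⟩
  rcases hP with hq | ⟨L, Γ, _, v, hv, hq⟩
  · obtain ⟨Q, h1, h2, h3⟩ := main_rat hq (nc_of_collinear hcol)
    exact ⟨Q, h1, h2, finish h3⟩
  · obtain ⟨Q, h1, h2, h3⟩ := main_val v hv hq (nc_of_collinear hcol)
    exact ⟨Q, h1, h2, finish h3⟩

end Pool.Agent.Results.MP_cbf770_co.TwoAdic
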